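import Pool.Agent.L7h27.SJ.Stm
import Pool.Agent.L7h65.SI.Red

/-!
Project SJ (MP_3587c3_al), part ONE: the prime 2.
-/

set_option autoImplicit false
set_option linter.all false

namespace Pool.Agent.L7h73.SJ

open Finset Pool.Agent.L7h27.SI Pool.Agent.L7h27.SJ
open Pool.Agent.L7h65.SI (rQ rU rQ_mk triv_of fix_pt)

theorem key (hcl : ∀ n, ClaimA n) : ∀ n : ℕ, ∀ (V : Type) [AddCommGroup V] (ι : Type)
    (N : ι → Type) [∀ i, Group (N i)] (A : ι → Prop) (p : ι → ℕ)
    (ρ : ∀ i, N i →* AddMonoid.End V), HypB A p ρ → Nat.card V = n →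
    ∀ w : ι → V, ∃ v, Good ρ w v := by
  intro n
  induction n using Nat.strong_induction_on with
  | _ n ih =>
  intro V _ ι N _ A p ρ hH hn w
  obtain ⟨finV, finI, finN, hprime, hinj, hodd, hpg, hcop, hab, hmers, hcomm⟩ := hH
  rcases subsingleton_or_nontrivial V with hV | hV
  · refine ⟨0, fun i g _ => ?_⟩
    apply AddMonoidHom.ext
    intro x
    exact Subsingleton.elim _ _
  by_cases hirr : Irr ρ
  · -- irreducible
    have HA : HypA (ι := {i // p i ≠ 2}) (fun i => A i.1) (fun i => p i.1) (fun i => ρ i.1) := by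
      refine ⟨inferInstance, inferInstance, fun i => finN i.1, fun i => hprime i.1,
        fun i j h => Subtype.ext (hinj h), fun i => i.2, fun i => hpg i.1, fun i => hcop i.1,
        fun i => hab i.1, fun i => hmers i.1, fun i j hij g h => hcomm i.1 j.1 ?_ g h⟩
      intro h
      exact hij (Subtype.ext h)
    have h2 := ((hcl (Nat.card V)) V {i // p i ≠ 2} (fun i => N i.1) (fun i => A i.1)
      (fun i => p i.1) (fun i => ρ i.1) HA hV rfl (fun i => w i.1)).1
    have hnt : Nontrivial {v : V // Good (ι := {i // p i ≠ 2}) (fun i => ρ i.1)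
        (fun i => w i.1) v} := by
      rw [← Finite.one_lt_card_iff_nontrivial]
      exact h2
    obtain ⟨a, b, hne⟩ := exists_pair_ne {v : V // Good (ι := {i // p i ≠ 2}) (fun i => ρ i.1)
        (fun i => w i.1) v}
    by_cases h0 : ∃ i0, p i0 = 2
    · obtain ⟨i0, hi0⟩ := h0
      obtain ⟨v, hv, hvne⟩ : ∃ v : V, Good (ι := {i // p i ≠ 2}) (fun i => ρ i.1)
          (fun i => w i.1) v ∧ v ≠ -w i0 := by
        by_cases ha : a.1 = -w i0
        · refine ⟨b.1, b.2, fun hb => hne (Subtype.ext (ha.trans hb.symm))⟩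
        · exact ⟨a.1, a.2, ha⟩
      refine ⟨v, fun i g hg => ?_⟩
      by_cases hi : p i = 2
      · have hii : i = i0 := hinj (hi.trans hi0.symm)
        subst hii
        have hA : A i := by
          by_contra h
          exact hodd i h hi
        let F : AddSubgroup V :=
          { carrier := {x | ρ i g x = x}
            zero_mem' := map_zero _
            add_mem' := by
              intro x y hx hy
              show ρ i g (x + y) = x + y
              rw [map_add, show ρ i g x = x from hx, show ρ i g y = y from hy]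
            neg_mem' := by
              intro x hx
              show ρ i g (-x) = -x
              rw [map_neg, show ρ i g x = x from hx] }
        have hF : ∀ x, x ∈ F ↔ ρ i g x = x := fun x => Iff.rfl
        have hinv : Inv ρ F := by
          intro j h x hx
          rw [hF] at hx ⊢
          by_cases hji : j = i
          · subst hji
            have h1 : ρ j g * ρ j h = ρ j h * ρ j g := by
              rw [← map_mul, ← map_mul, hab j hA g h]
            have h3 : ρ j g (ρ j h x) = ρ j h (ρ j g x) :=
              congrArg (fun f : AddMonoid.End V => f x) h1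
            rw [h3, hx]
          · have h1 := hcomm i j (fun h => hji h.symm) g h
            have h3 : ρ i g (ρ j h x) = ρ j h (ρ i g x) :=
              congrArg (fun f : AddMonoid.End V => f x) h1
            rw [h3, hx]
        rcases hirr F hinv with h | h
        · exfalso
          have h4 : v + w i ∈ F := hg
          rw [h, AddSubgroup.mem_bot] at h4
          exact hvne (eq_neg_of_add_eq_zero_left h4)
        · apply AddMonoidHom.ext
          intro x
          have h4 : x ∈ F := by
            rw [h]
            exact AddSubgroup.mem_top x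
          exact h4
      · exact hv ⟨i, hi⟩ g hg
    · push Not at h0
      exact ⟨a.1, fun i g hg => a.2 ⟨i, h0 i⟩ g hg⟩
  · -- reducible
    unfold Irr at hirr
    push Not at hirr
    obtain ⟨U, hInv, hbot, htop⟩ := hirr
    have hU : ∀ i, ∀ g : N i, ∀ u ∈ U, ρ i g u ∈ U := hInv
    have hcardUQ : Nat.card V = Nat.card (V ⧸ U) * Nat.card U :=
      AddSubgroup.card_eq_card_quotient_mul_card_addSubgroup U
    have hntU : Nontrivial U := (AddSubgroup.nontrivial_iff_ne_bot U).2 hbot
    have hntQ : Nontrivial (V ⧸ U) := by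
      by_contra h
      rw [not_nontrivial_iff_subsingleton] at h
      apply htop
      rw [eq_top_iff]
      intro x _
      have h1 : (QuotientAddGroup.mk x : V ⧸ U) = QuotientAddGroup.mk 0 := Subsingleton.elim _ _
      rw [QuotientAddGroup.eq] at h1
      rw [add_zero] at h1
      exact neg_mem_iff.1 h1
    have hcU : 1 < Nat.card U := Finite.one_lt_card
    have hcQ : 1 < Nat.card (V ⧸ U) := Finite.one_lt_card
    have hUd : Nat.card U ∣ Nat.card V := ⟨_, by rw [hcardUQ, mul_comm]⟩
    have hQd : Nat.card (V ⧸ U) ∣ Nat.card V := ⟨_, hcardUQ⟩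
    have hUlt : Nat.card U < Nat.card V := by
      rw [hcardUQ]
      nlinarith
    have hQlt : Nat.card (V ⧸ U) < Nat.card V := by
      rw [hcardUQ]
      nlinarith
    set ρQ : ∀ i, N i →* AddMonoid.End (V ⧸ U) := fun i => rQ (ρ i) U (hU i) with hρQ
    set D : ∀ i, Subgroup (N i) := fun i => (ρQ i).ker with hD
    set ρU : ∀ i, D i →* AddMonoid.End U := fun i => rU (ρ i) U (hU i) (D i) with hρU
    have HQ : HypB A p ρQ := by
      refine ⟨inferInstance, finI, finN, hprime, hinj, hodd, hpg, fun i h => hcop i (h.trans hQd),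
        hab, fun i hA a b ha hb => hmers i hA a b ha (hb.trans hQd), fun i j hij g h => ?_⟩
      apply AddMonoidHom.ext
      intro x
      obtain ⟨x, rfl⟩ := QuotientAddGroup.mk_surjective x
      show (QuotientAddGroup.mk (ρ i g (ρ j h x)) : V ⧸ U) = QuotientAddGroup.mk (ρ j h (ρ i g x))
      have h1 := congrArg (fun f : AddMonoid.End V => f x) (hcomm i j hij g h)
      have h2 : ρ i g (ρ j h x) = ρ j h (ρ i g x) := h1
      rw [h2]
    have HU : HypB A p ρU := by
      refine ⟨inferInstance, finI, fun i => inferInstance, hprime, hinj, hodd,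
        fun i => (hpg i).to_subgroup _, fun i h => hcop i (h.trans hUd),
        fun i hA g h => Subtype.ext (hab i hA g.1 h.1),
        fun i hA a b ha hb => hmers i hA a b ha (hb.trans hUd), fun i j hij g h => ?_⟩
      apply AddMonoidHom.ext
      intro u
      apply Subtype.ext
      have h1 := congrArg (fun f : AddMonoid.End V => f u.1) (hcomm i j hij g.1 h.1)
      exact h1
    obtain ⟨c, hc⟩ := ih _ (hn ▸ hQlt) (V ⧸ U) ι N A p ρQ HQ rfl
      (fun i => QuotientAddGroup.mk (w i))
    obtain ⟨v0, hv0⟩ := QuotientAddGroup.mk_surjective c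
    have hfix : ∀ i : ι, ∃ f : V, (v0 + w i) - f ∈ U ∧ ∀ g ∈ D i, ρ i g f = f :=
      fun i => fix_pt (hU i) (hprime i) (hpg i) (fun h => hcop i (h.trans hUd)) _
    choose ff hf1 hf2 using hfix
    obtain ⟨u, hu⟩ := ih _ (hn ▸ hUlt) U ι (fun i => D i) A p ρU HU rfl
      (fun i => ⟨v0 + w i - ff i, hf1 i⟩)
    have htriv : ∀ i (g : D i), ρU i g = 1 → ρ i g.1 = 1 := by
      intro i g hg
      obtain ⟨k, hk⟩ := hpg i g.1
      refine triv_of (U := U) (hprime i) (fun h => hcop i (h.trans hUd)) hk ?_ ?_
      · intro u hu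
        have h1 := congrArg (fun f : AddMonoid.End U => ((f ⟨u, hu⟩ : U) : V)) hg
        exact h1
      · intro v
        have h1 : ρQ i g.1 = 1 := g.2
        have h2 : (QuotientAddGroup.mk v : V ⧸ U) = QuotientAddGroup.mk (ρ i g.1 v) := by
          have h3 : ρQ i g.1 (QuotientAddGroup.mk v) = QuotientAddGroup.mk v := by
            rw [h1]
            rfl
          exact h3.symm
        rw [QuotientAddGroup.eq] at h2
        have h4 : ρ i g.1 v - v = -v + ρ i g.1 v := by abel
        rw [h4]
        exact h2
    refine ⟨v0 + u, fun i g hg => ?_⟩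
    have h1 : ρQ i g (c + QuotientAddGroup.mk (w i)) = c + QuotientAddGroup.mk (w i) := by
      have h2 : c + QuotientAddGroup.mk (w i) =
          (QuotientAddGroup.mk (v0 + u + w i) : V ⧸ U) := by
        rw [QuotientAddGroup.mk_add, QuotientAddGroup.mk_add, hv0]
        have h3 : (QuotientAddGroup.mk (u : V) : V ⧸ U) = 0 :=
          (QuotientAddGroup.eq_zero_iff _).2 u.2
        rw [h3, add_zero]
      rw [h2]
      show QuotientAddGroup.mk (ρ i g (v0 + u + w i)) = _
      rw [hg]
    have hgD : g ∈ D i := hc i g h1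
    have h3 : ρU i ⟨g, hgD⟩ (u + ⟨v0 + w i - ff i, hf1 i⟩) =
        u + ⟨v0 + w i - ff i, hf1 i⟩ := by
      apply Subtype.ext
      show ρ i g ((u : V) + (v0 + w i - ff i)) = (u : V) + (v0 + w i - ff i)
      have h4 : (u : V) + (v0 + w i - ff i) = (v0 + u + w i) - ff i := by abel
      rw [h4, map_sub, hg, hf2 i g hgD]
    exact htriv i ⟨g, hgD⟩ (hu i ⟨g, hgD⟩ h3)

/-- [ONE] -/
theorem s_ONE : S_ONE := by
  intro hcl V _ ι N _ A p ρ hH w
  exact key hcl (Nat.card V) V ι N A p ρ hH rfl w

end Pool.Agent.L7h73.SJ
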